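import Pool.Agent.H15.Brouwer
import Pool.Agent.H815.HF.Brouwer

/-!
# Degree theory for `C¹` maps, part A: the integral of the Jacobian determinant
-/

set_option autoImplicit false

open MeasureTheory Set Metric Topology Filter Polynomial
open scoped NNReal

namespace Pool.Agent.V5helper18.Deg

variable {V : Type*} [NormedAddCommGroup V] [NormedSpace ℝ V] [FiniteDimensional ℝ V]

/-- `id + t (B - id)` is a bijection for small `t`. -/
theorem bij_small {H : V → V} {C : ℝ≥0} (hH : LipschitzWith C H) {t : ℝ} (ht0 : 0 ≤ t)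
    (ht : t * C < 1) : Function.Bijective (fun x => x + t • H x) := by
  obtain ⟨t', ht'⟩ : ∃ t' : ℝ≥0, (t' : ℝ) = t := ⟨⟨t, ht0⟩, rfl⟩
  have hK : t' * C < 1 := by
    have : ((t' * C : ℝ≥0) : ℝ) < 1 := by
      rw [NNReal.coe_mul, ht']
      exact ht
    exact_mod_cast this
  have hl : LipschitzWith (t' * C) (fun x => t • H x) := by
    have h1 : LipschitzWith t' (fun y : V => t • y) := by
      apply LipschitzWith.of_dist_le_mul
      intro a b
      rw [dist_smul₀, ht', Real.norm_eq_abs, abs_of_nonneg ht0]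
    exact h1.comp hH
  constructor
  · intro x y hxy
    have h1 : x - y = t • H y - t • H x := by
      have : x + t • H x = y + t • H y := hxy
      rw [sub_eq_sub_iff_add_eq_add, this]; abel
    have h2 : dist x y ≤ (t' * C : ℝ≥0) * dist x y := by
      calc dist x y = ‖x - y‖ := dist_eq_norm _ _
        _ = dist (t • H x) (t • H y) := by rw [h1, dist_comm, dist_eq_norm]
        _ ≤ _ := hl.dist_le_mul x y
    have h3 : ((t' * C : ℝ≥0) : ℝ) < 1 := by exact_mod_cast hK
    have h4 : dist x y = 0 := by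
      by_contra hne
      have : 0 < dist x y := lt_of_le_of_ne dist_nonneg (Ne.symm hne)
      nlinarith
    exact dist_eq_zero.1 h4
  · intro y
    have hc : ContractingWith (t' * C) (fun x => y - t • H x) := by
      refine ⟨hK, ?_⟩
      intro a b
      have := hl a b
      simpa [edist_sub_left] using this
    refine ⟨hc.fixedPoint (fun x => y - t • H x), ?_⟩
    have := hc.fixedPoint_isFixedPt
    have h2 : y - t • H (hc.fixedPoint (fun x => y - t • H x)) =
      hc.fixedPoint (fun x => y - t • H x) := this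
    show hc.fixedPoint (fun x => y - t • H x) +
      t • H (hc.fixedPoint (fun x => y - t • H x)) = y
    nth_rewrite 1 [← h2]
    abel

variable [MeasurableSpace V] [BorelSpace V] (μ : Measure V) [μ.IsAddHaarMeasure]

/-- Two `C¹` maps that agree off a compact set have the same integral of the determinant. -/
theorem null_lagrangian {B₀ B₁ : V → V} {C : ℝ≥0} (h₀ : ContDiff ℝ 1 B₀) (h₁ : ContDiff ℝ 1 B₁)
    (l₀ : LipschitzWith C fun x => B₀ x - x) (l₁ : LipschitzWith C fun x => B₁ x - x)
    {W : Set V} (hW : MeasurableSet W) (hWb : Bornology.IsBounded W)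
    (heq : ∀ x ∉ W, B₀ x = B₁ x) :
    ∫ x in W, (fderiv ℝ B₀ x).det ∂μ = ∫ x in W, (fderiv ℝ B₁ x).det ∂μ := by
  set δ : ℝ := 1 / (C + 1) with hδ
  have hC : (0 : ℝ) ≤ C := C.2
  have hδ0 : 0 < δ := by positivity
  have hδC : ∀ t, 0 ≤ t → t < δ → t * C < 1 := by
    intro t h0 ht
    have := (lt_div_iff₀ (by positivity : (0:ℝ) < C + 1)).1 ht
    nlinarith
  have hWfin : μ W < ⊤ := hWb.measure_lt_top
  have key : ∀ B : V → V, ContDiff ℝ 1 B → (LipschitzWith C fun x => B x - x) →
      ∀ t, 0 ≤ t → t < δ → ∫ x in W, (ContinuousLinearMap.id ℝ V + t • (fderiv ℝ B x -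
        ContinuousLinearMap.id ℝ V)).det ∂μ = μ.real ((fun x => x + t • (B x - x)) '' W) := by
    intro B hB lB t ht0 ht
    have hb := bij_small lB ht0 (hδC t ht0 ht)
    have hd : ∀ x, HasFDerivAt (fun x => B x - x) (fderiv ℝ B x - ContinuousLinearMap.id ℝ V) x :=
      fun x => ((hB.differentiable (by norm_num)) x).hasFDerivAt.sub (hasFDerivAt_id x)
    have hcv := integral_image_eq_integral_abs_det_fderiv_smul μ hW
      (f := fun x => x + t • (B x - x))
      (f' := fun x => ContinuousLinearMap.id ℝ V + t • (fderiv ℝ B x - ContinuousLinearMap.id ℝ V))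
      (fun x _ => ((hasFDerivAt_id x).add ((hd x).const_smul t)).hasFDerivWithinAt)
      hb.injective.injOn (fun _ => (1 : ℝ))
    have h2 : ∫ x in (fun x => x + t • (B x - x)) '' W, (1 : ℝ) ∂μ =
        μ.real ((fun x => x + t • (B x - x)) '' W) := by simp [Measure.real]
    rw [← h2, hcv]
    refine setIntegral_congr_fun hW (fun x _ => ?_)
    have hn : ‖fderiv ℝ B x - ContinuousLinearMap.id ℝ V‖ ≤ C := by
      have := (hd x).le_of_lipschitz lB
      exact this
    have hpos : 0 < (ContinuousLinearMap.id ℝ V + t • (fderiv ℝ B x -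
        ContinuousLinearMap.id ℝ V)).det := by
      apply Pool.Agent.H815.HF.Brouwer.det_pos_of_norm_lt
      rw [norm_smul, Real.norm_eq_abs, abs_of_nonneg ht0]
      exact (mul_le_mul_of_nonneg_left hn ht0).trans_lt (hδC t ht0 ht)
    simp [abs_of_pos hpos]
  have himg : ∀ t, 0 ≤ t → t < δ → (fun x => x + t • (B₀ x - x)) '' W =
      (fun x => x + t • (B₁ x - x)) '' W := by
    intro t ht0 ht
    have b0 := bij_small l₀ ht0 (hδC t ht0 ht)
    have b1 := bij_small l₁ ht0 (hδC t ht0 ht)
    have h3 : (fun x => x + t • (B₀ x - x)) '' Wᶜ = (fun x => x + t • (B₁ x - x)) '' Wᶜ := by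
      apply image_congr
      intro x hx
      simp only [heq x hx]
    rw [image_compl_eq b0, image_compl_eq b1] at h3
    exact compl_injective h3
  have main : ∀ t, 0 ≤ t → t < δ →
      ∫ x in W, (ContinuousLinearMap.id ℝ V + t • (fderiv ℝ B₀ x -
        ContinuousLinearMap.id ℝ V)).det ∂μ = ∫ x in W, (ContinuousLinearMap.id ℝ V +
          t • (fderiv ℝ B₁ x - ContinuousLinearMap.id ℝ V)).det ∂μ := by
    intro t ht0 ht
    rw [key B₀ h₀ l₀ t ht0 ht, key B₁ h₁ l₁ t ht0 ht, himg t ht0 ht]
  obtain ⟨v, w, hv, hw, hp⟩ := Pool.Agent.H15.Brouwer.interp (Module.finrank ℝ V) δ hδ0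
  have hsum : ∀ B : V → V, ∀ x, (fderiv ℝ B x).det = ∑ i, w i * (ContinuousLinearMap.id ℝ V +
      v i • (fderiv ℝ B x - ContinuousLinearMap.id ℝ V)).det := by
    intro B x
    obtain ⟨p, hp1, hp2⟩ := Pool.Agent.H815.HF.Brouwer.det_poly
      (fderiv ℝ B x - ContinuousLinearMap.id ℝ V)
    simp only [← hp2]
    rw [← hp p hp1, hp2, one_smul]
    congr 1
    abel
  have hint : ∀ B : V → V, ContDiff ℝ 1 B → ∀ t : ℝ, IntegrableOn (fun x =>
      (ContinuousLinearMap.id ℝ V + t • (fderiv ℝ B x - ContinuousLinearMap.id ℝ V)).det) W μ := by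
    intro B hB t
    have hc : Continuous (fderiv ℝ B) := hB.continuous_fderiv (by norm_num)
    exact ((ContinuousLinearMap.continuous_det.comp (continuous_const.add ((hc.sub
      continuous_const).const_smul t))).continuousOn.integrableOn_compact
      (hWb.isCompact_closure)).mono_set subset_closure
  have hfin : ∀ B : V → V, ContDiff ℝ 1 B → ∫ x in W, (fderiv ℝ B x).det ∂μ =
      ∑ i, w i * ∫ x in W, (ContinuousLinearMap.id ℝ V + v i • (fderiv ℝ B x -
        ContinuousLinearMap.id ℝ V)).det ∂μ := by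
    intro B hB
    calc ∫ x in W, (fderiv ℝ B x).det ∂μ = ∫ x in W, ∑ i, w i * (ContinuousLinearMap.id ℝ V +
          v i • (fderiv ℝ B x - ContinuousLinearMap.id ℝ V)).det ∂μ := by
            simp only [← hsum B]
      _ = ∑ i, ∫ x in W, w i * (ContinuousLinearMap.id ℝ V +
          v i • (fderiv ℝ B x - ContinuousLinearMap.id ℝ V)).det ∂μ := by
            apply integral_finsetSum
            intro i _
            exact (hint B hB (v i)).const_mul (w i)
      _ = _ := by
            simp only [integral_const_mul]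
  rw [hfin B₀ h₀, hfin B₁ h₁]
  exact Finset.sum_congr rfl fun i _ => by rw [main (v i) (hv i).1 (hv i).2]

end Pool.Agent.V5helper18.Deg
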