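import Pool.Agent.V5helper18.Deg.A

/-!
# Degree theory for `C¹` maps, part B: homotopy invariance and the local formula
-/

set_option autoImplicit false

open MeasureTheory Set Metric Topology Filter
open scoped NNReal Manifold

namespace Pool.Agent.V5helper18.Deg

section General

variable {V : Type*} [NormedAddCommGroup V] [NormedSpace ℝ V] [FiniteDimensional ℝ V]
  [MeasurableSpace V] [BorelSpace V] (μ : Measure V) [μ.IsAddHaarMeasure]

theorem null' {B₀ B₁ : V → V} (h₀ : ContDiff ℝ 1 B₀) (h₁ : ContDiff ℝ 1 B₁)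
    {W : Set V} (hW : MeasurableSet W) (hWb : Bornology.IsBounded W)
    (heq : ∀ x ∉ W, B₀ x = B₁ x) :
    ∫ x in W, (fderiv ℝ B₀ x).det ∂μ = ∫ x in W, (fderiv ℝ B₁ x).det ∂μ := by
  obtain ⟨R, hR0, hR⟩ : ∃ R : ℝ, 0 < R ∧ W ⊆ ball 0 R := by
    obtain ⟨R, hR⟩ := hWb.subset_ball 0
    exact ⟨max R 1, by positivity, hR.trans (ball_subset_ball (le_max_left _ _))⟩
  let χ : ContDiffBump (0 : V) := ⟨R, R + 1, hR0, by linarith⟩
  have hχ : ContDiff ℝ 1 (χ : V → ℝ) := χ.contDiff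
  have hcd : ∀ B : V → V, ContDiff ℝ 1 B → ContDiff ℝ 1 (fun x => χ x • (B x - x)) :=
    fun B hB => hχ.smul (hB.sub contDiff_id)
  have hl : ∀ B : V → V, ContDiff ℝ 1 B → ∃ C, LipschitzWith C (fun x => χ x • (B x - x)) := by
    intro B hB
    refine ContDiff.lipschitzWith_of_hasCompactSupport (n := 1) ?_ (hcd B hB) (by norm_num)
    exact χ.hasCompactSupport.smul_right
  obtain ⟨C₀, l₀⟩ := hl B₀ h₀
  obtain ⟨C₁, l₁⟩ := hl B₁ h₁
  have e : ∀ B : V → V, (fun x => (x + χ x • (B x - x)) - x) = fun x => χ x • (B x - x) := by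
    intro B; ext1 x; abel
  have hmain := null_lagrangian μ (B₀ := fun x => x + χ x • (B₀ x - x))
    (B₁ := fun x => x + χ x • (B₁ x - x)) (C := max C₀ C₁)
    (contDiff_id.add (hcd B₀ h₀)) (contDiff_id.add (hcd B₁ h₁))
    (by rw [e]; exact l₀.weaken (le_max_left _ _)) (by rw [e]; exact l₁.weaken (le_max_right _ _))
    hW hWb (fun x hx => by simp only [heq x hx])
  have hf : ∀ B : V → V, ∀ x ∈ W, fderiv ℝ (fun x => x + χ x • (B x - x)) x = fderiv ℝ B x := by
    intro B x hx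
    apply Filter.EventuallyEq.fderiv_eq
    filter_upwards [isOpen_ball.mem_nhds (hR hx)] with y hy
    rw [χ.one_of_mem_closedBall (ball_subset_closedBall hy), one_smul]
    abel
  have g : ∀ B : V → V, ∫ x in W, (fderiv ℝ (fun x => x + χ x • (B x - x)) x).det ∂μ =
      ∫ x in W, (fderiv ℝ B x).det ∂μ :=
    fun B => setIntegral_congr_fun hW (fun x hx => by simp only [hf B x hx])
  rw [g B₀, g B₁] at hmain
  exact hmain

end General

/-- The step function `ψ`. -/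
noncomputable def ψ (δ s : ℝ) : ℝ := Real.smoothTransition ((s + δ) / (2 * δ))

theorem ψ_contDiff (δ : ℝ) : ContDiff ℝ 1 (ψ δ) := by
  unfold ψ
  exact (Real.smoothTransition.contDiff (n := 1)).comp (by fun_prop)

theorem ψ_low {δ s : ℝ} (hδ : 0 < δ) (h : s ≤ -δ) : ψ δ s = 0 := by
  apply Real.smoothTransition.zero_of_nonpos
  apply div_nonpos_of_nonpos_of_nonneg <;> linarith

theorem ψ_high {δ s : ℝ} (hδ : 0 < δ) (h : δ ≤ s) : ψ δ s = 1 := by
  apply Real.smoothTransition.one_of_one_le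
  rw [le_div_iff₀ (by linarith)]; linarith

theorem dψ_zero {δ s : ℝ} (hδ : 0 < δ) (h : δ < |s|) : deriv (ψ δ) s = 0 := by
  rcases lt_abs.1 h with h | h
  · have : ψ δ =ᶠ[𝓝 s] fun _ => 1 := by
      filter_upwards [lt_mem_nhds h] with y hy using ψ_high hδ hy.le
    rw [this.deriv_eq]; simp
  · have : ψ δ =ᶠ[𝓝 s] fun _ => 0 := by
      filter_upwards [gt_mem_nhds (show s < -δ by linarith)] with y hy using ψ_low hδ hy.le
    rw [this.deriv_eq]; simp

theorem dψ_cont (δ : ℝ) : Continuous (deriv (ψ δ)) :=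
  (ψ_contDiff δ).continuous_deriv le_rfl

theorem dψ_int {δ : ℝ} (hδ : 0 < δ) : ∫ s, deriv (ψ δ) s = 1 := by
  have h1 : Function.support (deriv (ψ δ)) ⊆ Set.Ioc (-(2 * δ)) (2 * δ) := by
    intro s hs
    have : ¬ δ < |s| := fun h => hs (dψ_zero hδ h)
    have h2 := abs_le.1 (not_lt.1 this)
    constructor <;> linarith [h2.1, h2.2]
  rw [← intervalIntegral.integral_eq_integral_of_support_subset h1,
    intervalIntegral.integral_deriv_eq_sub' (ψ δ) rfl
      (fun x _ => ((ψ_contDiff δ).differentiable (by norm_num)) x) (dψ_cont δ).continuousOn,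
    ψ_high hδ (by linarith), ψ_low hδ (by linarith)]
  simp

section Coord

variable {ι : Type*} [Fintype ι]

/-- The density `∏ ψ'(y_i)`. -/
noncomputable def om (δ : ℝ) (y : ι → ℝ) : ℝ := ∏ i, deriv (ψ δ) (y i)

/-- The map `Ψ`. -/
noncomputable def Ψ (δ : ℝ) (y : ι → ℝ) : ι → ℝ := fun i => ψ δ (y i)

theorem om_cont (δ : ℝ) : Continuous (om δ : (ι → ℝ) → ℝ) := by
  unfold om
  exact continuous_finsetProd _ fun i _ => (dψ_cont δ).comp (continuous_apply i)

theorem om_zero {δ : ℝ} (hδ : 0 < δ) {y : ι → ℝ} (h : δ < ‖y‖) : om δ y = 0 := by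
  by_contra hne
  apply absurd h
  rw [not_lt, pi_norm_le_iff_of_nonneg hδ.le]
  intro i
  by_contra hi
  apply hne
  exact Finset.prod_eq_zero (Finset.mem_univ i) (dψ_zero hδ (by simpa using hi))

theorem om_int {δ : ℝ} (hδ : 0 < δ) : ∫ y : ι → ℝ, om δ y = 1 := by
  unfold om
  rw [integral_fintype_prod_volume_eq_prod (fun _ : ι => deriv (ψ δ))]
  simp [dψ_int hδ]

theorem Ψ_contDiff (δ : ℝ) : ContDiff ℝ 1 (Ψ δ : (ι → ℝ) → (ι → ℝ)) := by
  rw [contDiff_pi]
  intro i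
  exact (ψ_contDiff δ).comp (contDiff_apply ℝ ℝ i)

theorem det_comp {G : (ι → ℝ) → (ι → ℝ)} (hG : ContDiff ℝ 1 G) (δ : ℝ) (x : ι → ℝ) :
    (fderiv ℝ (fun x => Ψ δ (G x)) x).det = om δ (G x) * (fderiv ℝ G x).det := by
  classical
  have hGx : HasFDerivAt G (fderiv ℝ G x) x := (hG.differentiable (by norm_num) x).hasFDerivAt
  have hΨ : HasFDerivAt (Ψ δ : (ι → ℝ) → (ι → ℝ)) (ContinuousLinearMap.pi fun i =>
      (deriv (ψ δ) (G x i)) • (ContinuousLinearMap.proj i : (ι → ℝ) →L[ℝ] ℝ)) (G x) := by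
    rw [hasFDerivAt_pi]
    intro i
    have h1 : HasDerivAt (ψ δ) (deriv (ψ δ) (G x i)) (G x i) :=
      ((ψ_contDiff δ).differentiable (by norm_num) _).hasDerivAt
    have h2 : HasFDerivAt (fun y : ι → ℝ => y i)
      (ContinuousLinearMap.proj i : (ι → ℝ) →L[ℝ] ℝ) (G x) :=
      (ContinuousLinearMap.proj i : (ι → ℝ) →L[ℝ] ℝ).hasFDerivAt
    exact HasDerivAt.comp_hasFDerivAt (f := fun y : ι → ℝ => y i) (G x) h1 h2
  have h3 := (hΨ.comp x hGx).fderiv
  have h4 : (fun x => Ψ δ (G x)) = (Ψ δ : (ι → ℝ) → (ι → ℝ)) ∘ G := rfl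
  rw [h4, h3]
  have h5 : (ContinuousLinearMap.pi fun i =>
      (deriv (ψ δ) (G x i)) • (ContinuousLinearMap.proj i : (ι → ℝ) →L[ℝ] ℝ)).det =
        om δ (G x) := by
    have h6 : ((ContinuousLinearMap.pi fun i =>
      (deriv (ψ δ) (G x i)) • (ContinuousLinearMap.proj i : (ι → ℝ) →L[ℝ] ℝ) :
        (ι → ℝ) →L[ℝ] (ι → ℝ)) : (ι → ℝ) →ₗ[ℝ] (ι → ℝ)) =
        Matrix.toLin' (Matrix.diagonal fun i => deriv (ψ δ) (G x i)) := by
      ext y i
      simp [Matrix.mulVec_diagonal]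
    rw [ContinuousLinearMap.det, h6, LinearMap.det_toLin', Matrix.det_diagonal]
    rfl
  have h7 : ∀ A B : (ι → ℝ) →L[ℝ] (ι → ℝ), (A.comp B).det = A.det * B.det := by
    intro A B
    simp only [ContinuousLinearMap.det]
    rw [← LinearMap.det_comp]
    rfl
  rw [h7, h5]

/-- Homotopy invariance. -/
theorem hom_inv {G₀ G₁ : (ι → ℝ) → (ι → ℝ)} (h₀ : ContDiff ℝ 1 G₀) (h₁ : ContDiff ℝ 1 G₁)
    {O : Set (ι → ℝ)} (hO : IsOpen O) (hb : Bornology.IsBounded O) {δ : ℝ} (hδ : 0 < δ)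
    (hf : ∀ t ∈ Icc (0 : ℝ) 1, ∀ x ∈ frontier O, δ < ‖(1 - t) • G₀ x + t • G₁ x‖) :
    ∫ x in O, om δ (G₀ x) * (fderiv ℝ G₀ x).det = ∫ x in O, om δ (G₁ x) * (fderiv ℝ G₁ x).det := by
  set F : Set (ι → ℝ) := (fun p : ℝ × (ι → ℝ) => p.2) '' {p : ℝ × (ι → ℝ) | p.1 ∈ Icc (0 : ℝ) 1 ∧
    p.2 ∈ closure O ∧ ‖(1 - p.1) • G₀ p.2 + p.1 • G₁ p.2‖ ≤ δ} with hF
  have hFc : IsCompact F := by
    apply IsCompact.image _ continuous_snd
    have h1 : IsCompact (Icc (0 : ℝ) 1 ×ˢ closure O) := isCompact_Icc.prod hb.isCompact_closure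
    refine (h1.inter_right (t := {p : ℝ × (ι → ℝ) |
      ‖(1 - p.1) • G₀ p.2 + p.1 • G₁ p.2‖ ≤ δ}) ?_).of_isClosed_subset ?_ ?_
    · apply isClosed_le _ continuous_const
      have := h₀.continuous
      have := h₁.continuous
      fun_prop
    · have e1 : IsClosed {p : ℝ × (ι → ℝ) | ‖(1 - p.1) • G₀ p.2 + p.1 • G₁ p.2‖ ≤ δ} := by
        apply isClosed_le _ continuous_const
        have := h₀.continuous
        have := h₁.continuous
        fun_prop
      exact (isClosed_Icc.preimage continuous_fst).inter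
        ((isClosed_closure.preimage continuous_snd).inter e1)
    · rintro p ⟨a, b, c⟩
      exact ⟨⟨a, b⟩, c⟩
  have hFO : F ⊆ O := by
    rintro x ⟨p, ⟨h1, h2, h3⟩, rfl⟩
    by_contra hx
    have : p.2 ∈ frontier O := by
      rw [hO.frontier_eq]; exact ⟨h2, hx⟩
    exact absurd h3 (not_le.2 (hf _ h1 _ this))
  obtain ⟨K, hK, hFK, hKO⟩ := exists_compact_between hFc hO hFO
  obtain ⟨χ, χs, χr, χo, χ1⟩ := exists_contMDiff_support_eq_eq_one_iff (n := 1) 𝓘(ℝ, ι → ℝ)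
    hO hK.isClosed hKO
  have χc : ContDiff ℝ 1 χ := contMDiff_iff_contDiff.1 χs
  set H : (ι → ℝ) → (ι → ℝ) := fun x => G₀ x + χ x • (G₁ x - G₀ x) with hH
  have Hc : ContDiff ℝ 1 H := h₀.add (χc.smul (h₁.sub h₀))
  have e1 : ∫ x in O, om δ (G₀ x) * (fderiv ℝ G₀ x).det =
      ∫ x in O, om δ (H x) * (fderiv ℝ H x).det := by
    have := null' (μ := (volume : Measure (ι → ℝ))) (B₀ := fun x => Ψ δ (G₀ x))
      (B₁ := fun x => Ψ δ (H x)) ((Ψ_contDiff δ).comp h₀) ((Ψ_contDiff δ).comp Hc)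
      hO.measurableSet hb ?_
    · simpa only [det_comp h₀, det_comp Hc] using this
    · intro x hx
      have : χ x = 0 := by
        by_contra hne
        exact hx (χo ▸ (Function.mem_support.2 hne))
      simp [hH, this]
  rw [e1]
  apply setIntegral_congr_fun hO.measurableSet
  intro x hx
  by_cases hxF : x ∈ F
  · have h1 : H =ᶠ[𝓝 x] G₁ := by
      filter_upwards [isOpen_interior.mem_nhds (hFK hxF)] with y hy
      have : χ y = 1 := (χ1 y).1 (interior_subset hy)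
      simp [hH, this]
    simp only [h1.fderiv_eq, h1.eq_of_nhds]
  · have h2 : ∀ t ∈ Icc (0 : ℝ) 1, δ < ‖(1 - t) • G₀ x + t • G₁ x‖ := by
      intro t ht
      by_contra hlt
      exact hxF ⟨(t, x), ⟨ht, subset_closure hx, not_lt.1 hlt⟩, rfl⟩
    have h3 : H x = (1 - χ x) • G₀ x + χ x • G₁ x := by
      simp only [hH, sub_smul, smul_sub, one_smul]; abel
    have h4 : χ x ∈ Icc (0 : ℝ) 1 := χr ⟨x, rfl⟩
    have h5 := h2 1 ⟨by norm_num, le_rfl⟩
    simp only [sub_self, zero_smul, one_smul, zero_add] at h5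
    simp only [om_zero hδ h5, om_zero hδ (h3 ▸ h2 _ h4)]
    simp

/-- Local formula. -/
theorem local_formula {G : (ι → ℝ) → (ι → ℝ)} (hG : ContDiff ℝ 1 G)
    {O : Set (ι → ℝ)} (hO : IsOpen O) (hb : Bornology.IsBounded O)
    (hfr : ∀ x ∈ frontier O, G x ≠ 0)
    (hnd : ∀ x ∈ O, G x = 0 → (fderiv ℝ G x).det ≠ 0) :
    ∃ Z : Finset (ι → ℝ), (∀ x, x ∈ Z ↔ x ∈ O ∧ G x = 0) ∧ ∃ δ₀ : ℝ, 0 < δ₀ ∧
      ∀ δ : ℝ, 0 < δ → δ < δ₀ → ∫ x in O, om δ (G x) * (fderiv ℝ G x).det =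
        ∑ z ∈ Z, Real.sign (fderiv ℝ G z).det := by
  have hdc : Continuous fun x => (fderiv ℝ G x).det :=
    ContinuousLinearMap.continuous_det.comp (hG.continuous_fderiv (by norm_num))
  -- local neighbourhoods
  have hloc : ∀ z ∈ O, G z = 0 → ∃ U : Set (ι → ℝ), IsOpen U ∧ z ∈ U ∧ U ⊆ O ∧ InjOn G U ∧
      (∀ x ∈ U, 0 < Real.sign (fderiv ℝ G z).det * (fderiv ℝ G x).det) ∧
      ∀ W ∈ 𝓝 z, G '' W ∈ 𝓝 0 := by
    intro z hz hz0
    have hd := hnd z hz hz0
    have hs : HasStrictFDerivAt G ((ContinuousLinearMap.toContinuousLinearEquivOfDetNeZero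
      (fderiv ℝ G z) hd : (ι → ℝ) ≃L[ℝ] (ι → ℝ)) : (ι → ℝ) →L[ℝ] (ι → ℝ)) z := by
      simpa using hG.contDiffAt.hasStrictFDerivAt (by norm_num)
    have hpos : 0 < Real.sign (fderiv ℝ G z).det * (fderiv ℝ G z).det := by
      rcases lt_or_gt_of_ne hd with h | h
      · rw [Real.sign_of_neg h]; linarith
      · rw [Real.sign_of_pos h]; linarith
    have ho : IsOpen {x | 0 < Real.sign (fderiv ℝ G z).det * (fderiv ℝ G x).det} :=
      isOpen_lt continuous_const (continuous_const.mul hdc)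
    refine ⟨(hs.toOpenPartialHomeomorph G).source ∩ O ∩
      {x | 0 < Real.sign (fderiv ℝ G z).det * (fderiv ℝ G x).det},
      (((hs.toOpenPartialHomeomorph G).open_source.inter hO).inter ho),
      ⟨⟨hs.mem_toOpenPartialHomeomorph_source, hz⟩, hpos⟩, fun x hx => hx.1.2, ?_, fun x hx => hx.2,
      ?_⟩
    · intro x hx y hy hxy
      exact (hs.toOpenPartialHomeomorph G).injOn hx.1.1 hy.1.1 hxy
    · intro W hW
      have := hs.map_nhds_eq_of_equiv
      rw [hz0] at this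
      rw [← this]
      exact image_mem_map hW
  set K : Set (ι → ℝ) := {x | x ∈ O ∧ G x = 0} with hK
  have hKc : IsCompact K := by
    have : K = closure O ∩ {x | G x = 0} := by
      ext x
      constructor
      · rintro ⟨h1, h2⟩; exact ⟨subset_closure h1, h2⟩
      · rintro ⟨h1, h2⟩
        refine ⟨?_, h2⟩
        by_contra hx
        exact hfr x (by rw [hO.frontier_eq]; exact ⟨h1, hx⟩) h2
    rw [this]
    exact hb.isCompact_closure.inter_right (isClosed_eq hG.continuous continuous_const)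
  have hKf : K.Finite := by
    choose! U hU using hloc
    obtain ⟨t, ht⟩ := hKc.elim_finite_subcover (fun z : K => U z)
      (fun z => (hU z z.2.1 z.2.2).1) (fun x hx => mem_iUnion.2 ⟨⟨x, hx⟩, (hU x hx.1 hx.2).2.1⟩)
    refine (t.finite_toSet.image Subtype.val).subset ?_
    intro x hx
    obtain ⟨z, hz⟩ := mem_iUnion.1 (ht hx)
    obtain ⟨hzt, hxz⟩ := mem_iUnion.1 hz
    have h1 := hU z z.2.1 z.2.2
    have : x = z := h1.2.2.2.1 hxz h1.2.1 (by rw [hx.2, z.2.2])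
    exact ⟨z, hzt, this.symm⟩
  obtain ⟨T, hT, hTd⟩ := hKf.t2_separation
  choose! U hU using hloc
  have hUT : ∀ z ∈ K, IsOpen (U z ∩ T z) := fun z hz => (hU z hz.1 hz.2).1.inter (hT z).2
  set Z := hKf.toFinset with hZ
  have hZm : ∀ x, x ∈ Z ↔ x ∈ O ∧ G x = 0 := fun x => by simp [hZ, hK]
  have hZK : ∀ x ∈ Z, x ∈ K := fun x hx => (hZm x).1 hx
  set Un : Set (ι → ℝ) := ⋃ z ∈ Z, U z ∩ T z with hUn
  have hUno : IsOpen Un := isOpen_biUnion fun z hz => hUT z (hZK z hz)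
  have hUnO : Un ⊆ O := by
    intro x hx
    simp only [hUn, mem_iUnion] at hx
    obtain ⟨z, hz, hx⟩ := hx
    exact (hU z (hZK z hz).1 (hZK z hz).2).2.2.1 hx.1
  obtain ⟨δ₁, hδ₁, h1⟩ : ∃ δ₁ : ℝ, 0 < δ₁ ∧ ∀ x ∈ O, x ∉ Un → δ₁ ≤ ‖G x‖ := by
    have hc : IsCompact (closure O \ Un) := hb.isCompact_closure.diff hUno
    rcases (closure O \ Un).eq_empty_or_nonempty with he | hne
    · refine ⟨1, one_pos, fun x hx hxU => ?_⟩
      have : x ∈ closure O \ Un := ⟨subset_closure hx, hxU⟩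
      rw [he] at this
      exact this.elim
    · obtain ⟨x₀, hx₀, hmin⟩ := hc.exists_isMinOn hne hG.continuous.norm.continuousOn
      refine ⟨‖G x₀‖, ?_, fun x hx hxU => hmin ⟨subset_closure hx, hxU⟩⟩
      rw [norm_pos_iff]
      intro h0
      by_cases hx : x₀ ∈ O
      · exact hx₀.2 (mem_biUnion ((hZm x₀).2 ⟨hx, h0⟩) ⟨(hU x₀ hx h0).2.1, (hT x₀).1⟩)
      · exact hfr x₀ (by rw [hO.frontier_eq]; exact ⟨hx₀.1, hx⟩) h0
  obtain ⟨δ₂, hδ₂, h2⟩ : ∃ δ₂ : ℝ, 0 < δ₂ ∧ ∀ z ∈ Z, ball (0 : ι → ℝ) δ₂ ⊆ G '' (U z ∩ T z) := by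
    have : (⋂ z ∈ Z, G '' (U z ∩ T z)) ∈ 𝓝 (0 : ι → ℝ) := by
      rw [Filter.biInter_finset_mem]
      intro z hz
      exact (hU z (hZK z hz).1 (hZK z hz).2).2.2.2.2.2 _ ((hUT z (hZK z hz)).mem_nhds
        ⟨(hU z (hZK z hz).1 (hZK z hz).2).2.1, (hT z).1⟩)
    obtain ⟨δ₂, hδ₂, h⟩ := Metric.mem_nhds_iff.1 this
    refine ⟨δ₂, hδ₂, fun z hz x hx => ?_⟩
    have := h hx
    simp only [mem_iInter] at this
    exact this z hz
  refine ⟨Z, hZm, min δ₁ δ₂, lt_min hδ₁ hδ₂, fun δ hδ hδ0 => ?_⟩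
  have hcont : Continuous fun x => om δ (G x) * (fderiv ℝ G x).det :=
    ((om_cont δ).comp hG.continuous).mul hdc
  rw [setIntegral_eq_of_subset_of_forall_sdiff_eq_zero hO.measurableSet hUnO]
  · rw [hUn, integral_biUnion_finset]
    · apply Finset.sum_congr rfl
      intro z hz
      obtain ⟨a1, a2, a3, a4, a5, a6⟩ := hU z (hZK z hz).1 (hZK z hz).2
      have hms : MeasurableSet (U z ∩ T z) := (hUT z (hZK z hz)).measurableSet
      have hcv := integral_image_eq_integral_abs_det_fderiv_smul volume hms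
        (f := G) (f' := fderiv ℝ G)
        (fun x _ => (hG.differentiable (by norm_num) x).hasFDerivAt.hasFDerivWithinAt)
        (a4.mono inter_subset_left) (om δ)
      have h3 : ∫ x in G '' (U z ∩ T z), om δ x = 1 := by
        rw [← om_int (ι := ι) hδ]
        apply setIntegral_eq_integral_of_forall_compl_eq_zero
        intro x hx
        apply om_zero hδ
        by_contra hlt
        apply hx
        apply h2 z hz
        rw [mem_ball_zero_iff]
        exact (not_lt.1 hlt).trans_lt (hδ0.trans_le (min_le_right _ _))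
      have hsq : Real.sign (fderiv ℝ G z).det * Real.sign (fderiv ℝ G z).det = 1 := by
        rcases lt_or_gt_of_ne (hnd z (hZK z hz).1 (hZK z hz).2) with h | h
        · rw [Real.sign_of_neg h]; norm_num
        · rw [Real.sign_of_pos h]; norm_num
      have hcg : ∀ x ∈ U z ∩ T z, om δ (G x) * (fderiv ℝ G x).det =
          Real.sign (fderiv ℝ G z).det * (|(fderiv ℝ G x).det| • om δ (G x)) := by
        intro x hx
        have h5 := a5 x hx.1
        have h6 : |(fderiv ℝ G x).det| = Real.sign (fderiv ℝ G z).det * (fderiv ℝ G x).det := by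
          rcases lt_or_gt_of_ne (hnd z (hZK z hz).1 (hZK z hz).2) with h | h
          · rw [Real.sign_of_neg h] at h5 ⊢
            rw [abs_of_neg (by linarith)]; ring
          · rw [Real.sign_of_pos h] at h5 ⊢
            rw [abs_of_pos (by linarith)]; ring
        rw [h6, smul_eq_mul]
        linear_combination (-(fderiv ℝ G x).det * om δ (G x)) * hsq
      rw [setIntegral_congr_fun hms hcg, integral_const_mul, ← hcv, h3, mul_one]
    · intro z hz
      exact (hUT z (hZK z hz)).measurableSet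
    · intro z hz w hw hne
      have := hTd (hZK z hz) (hZK w hw) hne
      exact this.mono inter_subset_right inter_subset_right
    · intro z hz
      exact (hcont.continuousOn.integrableOn_compact hb.isCompact_closure).mono_set
        ((inter_subset_left.trans (hU z (hZK z hz).1 (hZK z hz).2).2.2.1).trans subset_closure)
  · intro x hx
    rw [om_zero hδ ((hδ0.trans_le (min_le_left _ _)).trans_le (h1 x hx.1 hx.2)), zero_mul]

end Coord

end Pool.Agent.V5helper18.Deg
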