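import Pool.Agent.V5helper18.Deg.B

/-!
# Degree theory for `C¹` maps, part C: uniqueness of zeros through a homotopy
-/

set_option autoImplicit false

open MeasureTheory Set Metric Topology Filter
open scoped NNReal Manifold

namespace Pool.Agent.V5helper18.Deg

section Coord

variable {ι : Type*} [Fintype ι]

theorem unique_zero_coord {G₀ G₁ : (ι → ℝ) → (ι → ℝ)} (h₀ : ContDiff ℝ 1 G₀)
    (h₁ : ContDiff ℝ 1 G₁) {O : Set (ι → ℝ)} (hO : IsOpen O) (hb : Bornology.IsBounded O)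
    (hf : ∀ t ∈ Icc (0 : ℝ) 1, ∀ x ∈ frontier O, (1 - t) • G₀ x + t • G₁ x ≠ 0)
    {z₀ : ι → ℝ} (hz₀ : z₀ ∈ O) (hz0 : G₀ z₀ = 0) (huniq : ∀ z ∈ O, G₀ z = 0 → z = z₀)
    (hdet : (fderiv ℝ G₀ z₀).det ≠ 0) {σ : ℝ}
    (hσ : ∀ z ∈ O, G₁ z = 0 → 0 < σ * (fderiv ℝ G₁ z).det) :
    ∃ z, z ∈ O ∧ G₁ z = 0 ∧ ∀ w ∈ O, G₁ w = 0 → w = z := by
  have hf0 : ∀ x ∈ frontier O, G₀ x ≠ 0 := by
    intro x hx
    have := hf 0 ⟨le_rfl, zero_le_one⟩ x hx
    simpa using this
  have hf1 : ∀ x ∈ frontier O, G₁ x ≠ 0 := by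
    intro x hx
    have := hf 1 ⟨zero_le_one, le_rfl⟩ x hx
    simpa using this
  obtain ⟨Z₀, hZ₀, a, ha, h0⟩ := local_formula h₀ hO hb hf0 (by
    intro x hx hx0
    rw [huniq x hx hx0]; exact hdet)
  obtain ⟨Z₁, hZ₁, b, hb', h1⟩ := local_formula h₁ hO hb hf1 (by
    intro x hx hx0 h
    have := hσ x hx hx0
    rw [h] at this
    simp at this)
  obtain ⟨c, hc, hcf⟩ : ∃ c : ℝ, 0 < c ∧ ∀ t ∈ Icc (0 : ℝ) 1, ∀ x ∈ frontier O,
      c < ‖(1 - t) • G₀ x + t • G₁ x‖ := by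
    have hK : IsCompact (Icc (0 : ℝ) 1 ×ˢ frontier O) :=
      isCompact_Icc.prod (hb.isCompact_closure.of_isClosed_subset isClosed_frontier
        frontier_subset_closure)
    rcases (Icc (0 : ℝ) 1 ×ˢ frontier O).eq_empty_or_nonempty with he | hne
    · refine ⟨1, one_pos, fun t ht x hx => ?_⟩
      have : (t, x) ∈ Icc (0 : ℝ) 1 ×ˢ frontier O := ⟨ht, hx⟩
      rw [he] at this
      exact this.elim
    · have hcont : Continuous fun p : ℝ × (ι → ℝ) => ‖(1 - p.1) • G₀ p.2 + p.1 • G₁ p.2‖ := by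
        have := h₀.continuous
        have := h₁.continuous
        fun_prop
      obtain ⟨p, hp, hmin⟩ := hK.exists_isMinOn hne hcont.continuousOn
      have hpos : 0 < ‖(1 - p.1) • G₀ p.2 + p.1 • G₁ p.2‖ :=
        norm_pos_iff.2 (hf p.1 hp.1 p.2 hp.2)
      refine ⟨‖(1 - p.1) • G₀ p.2 + p.1 • G₁ p.2‖ / 2, half_pos hpos, fun t ht x hx => ?_⟩
      have : ‖(1 - p.1) • G₀ p.2 + p.1 • G₁ p.2‖ ≤ ‖(1 - t) • G₀ x + t • G₁ x‖ :=
        hmin (show (t, x) ∈ Icc (0 : ℝ) 1 ×ˢ frontier O from ⟨ht, hx⟩)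
      linarith
  set δ := min (min a b) c / 2 with hδd
  have hm : 0 < min (min a b) c := lt_min (lt_min ha hb') hc
  have hδ : 0 < δ := half_pos hm
  have hδa : δ < a := (half_lt_self hm).trans_le ((min_le_left _ _).trans (min_le_left _ _))
  have hδb : δ < b := (half_lt_self hm).trans_le ((min_le_left _ _).trans (min_le_right _ _))
  have hδc : δ < c := (half_lt_self hm).trans_le (min_le_right _ _)
  have e0 := h0 δ hδ hδa
  have e1 := h1 δ hδ hδb
  have e2 := hom_inv h₀ h₁ hO hb hδ (fun t ht x hx => hδc.trans (hcf t ht x hx))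
  rw [e0, e1] at e2
  have hZs : Z₀ = {z₀} := by
    ext x
    rw [hZ₀, Finset.mem_singleton]
    exact ⟨fun h => huniq x h.1 h.2, fun h => h ▸ ⟨hz₀, hz0⟩⟩
  have hσ0 : σ ≠ 0 ∨ Z₁ = ∅ := by
    rcases Z₁.eq_empty_or_nonempty with h | ⟨x, hx⟩
    · exact Or.inr h
    · left
      intro h
      have := hσ x ((hZ₁ x).1 hx).1 ((hZ₁ x).1 hx).2
      rw [h] at this
      simp at this
  rw [hZs, Finset.sum_singleton] at e2
  have habs0 : |Real.sign (fderiv ℝ G₀ z₀).det| = 1 := by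
    rcases lt_or_gt_of_ne hdet with h | h
    · rw [Real.sign_of_neg h]; norm_num
    · rw [Real.sign_of_pos h]; norm_num
  have hsum : ∑ z ∈ Z₁, Real.sign (fderiv ℝ G₁ z).det = Z₁.card * Real.sign σ := by
    rw [Finset.sum_congr rfl (g := fun _ => Real.sign σ), Finset.sum_const, nsmul_eq_mul]
    intro z hz
    have h := hσ z ((hZ₁ z).1 hz).1 ((hZ₁ z).1 hz).2
    rcases pos_and_pos_or_neg_and_neg_of_mul_pos h with ⟨h1, h2⟩ | ⟨h1, h2⟩
    · rw [Real.sign_of_pos h1, Real.sign_of_pos h2]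
    · rw [Real.sign_of_neg h1, Real.sign_of_neg h2]
  rw [hsum] at e2
  have habs : |Real.sign σ| ≤ 1 := by
    rcases lt_trichotomy σ 0 with h | h | h
    · rw [Real.sign_of_neg h]; norm_num
    · rw [h, Real.sign_zero]; norm_num
    · rw [Real.sign_of_pos h]; norm_num
  have hcard : Z₁.card = 1 := by
    rw [e2, abs_mul, Nat.abs_cast] at habs0
    have hσ1 : |Real.sign σ| = 1 := by
      rcases lt_trichotomy σ 0 with h | h | h
      · rw [Real.sign_of_neg h]; norm_num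
      · rw [h, Real.sign_zero] at habs0; norm_num at habs0
      · rw [Real.sign_of_pos h]; norm_num
    rw [hσ1, mul_one] at habs0
    exact_mod_cast habs0
  obtain ⟨z, hz⟩ := Finset.card_eq_one.1 hcard
  have hzm : z ∈ Z₁ := hz ▸ Finset.mem_singleton_self z
  refine ⟨z, ((hZ₁ z).1 hzm).1, ((hZ₁ z).1 hzm).2, fun w hw hw0 => ?_⟩
  have : w ∈ Z₁ := (hZ₁ w).2 ⟨hw, hw0⟩
  rw [hz] at this
  exact Finset.mem_singleton.1 this

end Coord

variable {V : Type*} [NormedAddCommGroup V] [NormedSpace ℝ V] [FiniteDimensional ℝ V]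

omit [FiniteDimensional ℝ V] in
theorem det_conj {W : Type*} [NormedAddCommGroup W] [NormedSpace ℝ W] (e : V ≃L[ℝ] W)
    (A : V →L[ℝ] V) : ((e : V →L[ℝ] W).comp (A.comp (e.symm : W →L[ℝ] V))).det = A.det := by
  have := LinearMap.det_conj (A : V →ₗ[ℝ] V) e.toLinearEquiv
  rw [ContinuousLinearMap.det, ContinuousLinearMap.det, ← this]
  congr 1

/-- If a `C¹` map has a single, nondegenerate zero in a bounded open set, the linear homotopy to
another `C¹` map has no zeros on the frontier, and all the zeros of the second map have the same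
nonzero index, then the second map has exactly one zero. -/
theorem unique_zero {G₀ G₁ : V → V} (h₀ : ContDiff ℝ 1 G₀)
    (h₁ : ContDiff ℝ 1 G₁) {O : Set V} (hO : IsOpen O) (hb : Bornology.IsBounded O)
    (hf : ∀ t ∈ Icc (0 : ℝ) 1, ∀ x ∈ frontier O, (1 - t) • G₀ x + t • G₁ x ≠ 0)
    {z₀ : V} (hz₀ : z₀ ∈ O) (hz0 : G₀ z₀ = 0) (huniq : ∀ z ∈ O, G₀ z = 0 → z = z₀)
    (hdet : (fderiv ℝ G₀ z₀).det ≠ 0) {σ : ℝ}
    (hσ : ∀ z ∈ O, G₁ z = 0 → 0 < σ * (fderiv ℝ G₁ z).det) :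
    ∃ z, z ∈ O ∧ G₁ z = 0 ∧ ∀ w ∈ O, G₁ w = 0 → w = z := by
  let e : V ≃L[ℝ] (Fin (Module.finrank ℝ V) → ℝ) :=
    ContinuousLinearEquiv.ofFinrankEq (by simp)
  have hcd : ∀ G : V → V, ContDiff ℝ 1 G → ContDiff ℝ 1 (fun y => e (G (e.symm y))) :=
    fun G hG => e.contDiff.comp (hG.comp e.symm.contDiff)
  have hfd : ∀ G : V → V, ContDiff ℝ 1 G → ∀ y,
      (fderiv ℝ (fun y => e (G (e.symm y))) y).det = (fderiv ℝ G (e.symm y)).det := by
    intro G hG y
    have h1 : HasFDerivAt G (fderiv ℝ G (e.symm y)) (e.symm y) :=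
      (hG.differentiable (by norm_num) _).hasFDerivAt
    have h2 : HasFDerivAt (fun y => e (G (e.symm y)))
        ((e : V →L[ℝ] _).comp ((fderiv ℝ G (e.symm y)).comp (e.symm : _ →L[ℝ] V))) y :=
      e.hasFDerivAt.comp y (h1.comp y e.symm.hasFDerivAt)
    rw [h2.fderiv, det_conj]
  set O' : Set (Fin (Module.finrank ℝ V) → ℝ) := e.symm ⁻¹' O with hO'
  have hO'o : IsOpen O' := hO.preimage e.symm.continuous
  have hO'e : O' = e '' O := (e.image_eq_preimage_symm O).symm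
  have hb' : Bornology.IsBounded O' := by
    rw [hO'e]
    exact e.lipschitz.isBounded_image hb
  have hfr : ∀ x ∈ frontier O', e.symm x ∈ frontier O := by
    intro x hx
    have := e.symm.toHomeomorph.preimage_frontier O
    rw [← mem_preimage]
    have h2 : (e.symm : _ → V) ⁻¹' frontier O = frontier O' := this
    rw [h2]; exact hx
  obtain ⟨z, hz1, hz2, hz3⟩ := unique_zero_coord (hcd G₀ h₀) (hcd G₁ h₁) hO'o hb' (σ := σ)
    (z₀ := e z₀) (by
      intro t ht x hx h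
      apply hf t ht _ (hfr x hx)
      apply e.injective
      simpa using h) (by simpa [hO'] using hz₀) (by simp [hz0]) (by
      intro z hz hz'
      have h1 : G₀ (e.symm z) = 0 := by
        apply e.injective
        simpa using hz'
      rw [← huniq _ hz h1]; simp) (by
      rw [hfd G₀ h₀]; simpa using hdet) (by
      intro z hz hz'
      have h1 : G₁ (e.symm z) = 0 := by
        apply e.injective
        simpa using hz'
      rw [hfd G₁ h₁]
      exact hσ _ hz h1)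
  refine ⟨e.symm z, hz1, ?_, ?_⟩
  · apply e.injective
    simpa using hz2
  · intro w hw hw'
    rw [← hz3 (e w) (by simpa [hO'] using hw) (by simp [hw'])]
    simp

end Pool.Agent.V5helper18.Deg
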